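import Mathlib

namespace Pool.Agent.H.MP_00a158_co
open Finset

/-- cells of the grid -/
def grid (m n : ℕ) : Finset (ℕ × ℕ) := Icc 1 m ×ˢ Icc 1 n

/-- order ideals of the grid -/
def IsIdeal (m n : ℕ) (A : Finset (ℕ × ℕ)) : Prop :=
  A ⊆ grid m n ∧ ∀ u ∈ A, ∀ v ∈ grid m n, v.1 ≤ u.1 → v.2 ≤ u.2 → v ∈ A

/-- closed neighbourhood in the grid graph -/
def nbhd (m n : ℕ) (A : Finset (ℕ × ℕ)) : Finset (ℕ × ℕ) :=
  (grid m n).filter (fun v => v ∈ A ∨ ∃ u ∈ A, Nat.dist u.1 v.1 + Nat.dist u.2 v.2 = 1)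

noncomputable def nu (m n s : ℕ) : ℕ :=
  sInf {k | ∃ A, IsIdeal m n A ∧ A.card = s ∧ (nbhd m n A).card = k}

/-- number of cells with `i + j < k + 2` -/
def AA (m n k : ℕ) : ℕ := ((grid m n).filter (fun v => v.1 + v.2 < k + 2)).card

def dd (m n k : ℕ) : ℕ := min (k + 1) (min n (m + n - 1 - k))

lemma mem_grid {m n : ℕ} {v : ℕ × ℕ} : v ∈ grid m n ↔ (1 ≤ v.1 ∧ v.1 ≤ m) ∧ 1 ≤ v.2 ∧ v.2 ≤ n := by
  simp [grid]

lemma card_grid (m n : ℕ) : (grid m n).card = m * n := by simp [grid]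

lemma AA_zero (m n : ℕ) : AA m n 0 = 0 := by
  rw [AA, card_eq_zero, filter_eq_empty_iff]
  intro v hv
  rw [mem_grid] at hv
  omega

lemma AA_top (m n k : ℕ) (hk : m + n - 1 ≤ k) : AA m n k = m * n := by
  rw [AA, filter_true_of_mem, card_grid]
  intro v hv
  rw [mem_grid] at hv
  omega

lemma AA_succ {m n : ℕ} (h : n ≤ m) (k : ℕ) : AA m n (k + 1) = AA m n k + dd m n k := by
  have e : (grid m n).filter (fun v => v.1 + v.2 < k + 1 + 2) =
      (grid m n).filter (fun v => v.1 + v.2 < k + 2) ∪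
      (Icc (max 1 (k + 2 - m)) (min n (k + 1))).image (fun j => (k + 2 - j, j)) := by
    ext ⟨i, j⟩
    simp only [mem_filter, mem_union, mem_image, mem_Icc, mem_grid, Prod.mk.injEq]
    constructor
    · intro hv
      by_cases hc : i + j < k + 2
      · exact Or.inl ⟨hv.1, hc⟩
      · exact Or.inr ⟨j, by omega, by omega, rfl⟩
    · rintro (hv | ⟨a, ha, h1, h2⟩)
      · exact ⟨hv.1, by omega⟩
      · omega
  rw [AA, e, card_union_of_disjoint, card_image_of_injective, Nat.card_Icc, AA, dd]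
  · omega
  · intro a b hab
    exact (Prod.mk.inj hab).2
  · rw [disjoint_left]
    rintro ⟨i, j⟩ h1 h2
    simp only [mem_filter, mem_image, mem_Icc, Prod.mk.injEq] at h1 h2
    obtain ⟨a, ha, h3, h4⟩ := h2
    omega

lemma AA_mono (m n : ℕ) {a b : ℕ} (h : a ≤ b) : AA m n a ≤ AA m n b :=
  card_le_card fun v hv => by
    rw [mem_filter] at hv ⊢
    exact ⟨hv.1, by omega⟩

lemma AA_le (m n k : ℕ) : AA m n k ≤ m * n := by
  rw [← card_grid]; exact card_filter_le _ _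

lemma AA_symm {m n : ℕ} (h : n ≤ m) : ∀ a b : ℕ, a + b = m + n - 1 → AA m n a + AA m n b = m * n
  | 0, b, e => by rw [AA_zero, AA_top m n b (by omega), zero_add]
  | a + 1, b, e => by
      have := AA_symm h a (b + 1) (by omega)
      rw [AA_succ h] at this ⊢
      have : dd m n a = dd m n b := by unfold dd; omega
      omega

lemma cross (p : ℕ → Prop) (a : ℕ) (ha : p a) : ∀ b, a ≤ b → ¬ p b →
    ∃ i, a ≤ i ∧ i < b ∧ p i ∧ ¬ p (i + 1) := by
  intro b hb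
  induction b, hb using Nat.le_induction with
  | base => intro h; exact absurd ha h
  | succ b hb ih =>
    intro h
    by_cases hp : p b
    · exact ⟨b, hb, by omega, hp, h⟩
    · obtain ⟨i, h1, h2, h3⟩ := ih hp
      exact ⟨i, h1, by omega, h3⟩

section
variable {m n : ℕ} {A : Finset (ℕ × ℕ)}

lemma colB (hA : IsIdeal m n A) {a b j : ℕ} (h1 : (a, j) ∈ A) (h2 : (b, j) ∉ A) (hab : a ≤ b)
    (hb : b ≤ m) : ∃ i, a < i ∧ i ≤ b ∧ (i, j) ∈ nbhd m n A \ A := by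
  obtain ⟨i, e1, e2, e3, e4⟩ := cross (fun i => (i, j) ∈ A) a h1 b hab h2
  have := mem_grid.1 (hA.1 e3)
  refine ⟨i + 1, by omega, by omega, mem_sdiff.2 ⟨mem_filter.2 ⟨mem_grid.2 ?_, Or.inr
    ⟨(i, j), e3, ?_⟩⟩, e4⟩⟩
  · simp only at this ⊢; omega
  · simp [Nat.dist]

lemma rowB (hA : IsIdeal m n A) {a b i : ℕ} (h1 : (i, a) ∈ A) (h2 : (i, b) ∉ A) (hab : a ≤ b)
    (hb : b ≤ n) : ∃ j, a < j ∧ j ≤ b ∧ (i, j) ∈ nbhd m n A \ A := by
  obtain ⟨j, e1, e2, e3, e4⟩ := cross (fun j => (i, j) ∈ A) a h1 b hab h2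
  have := mem_grid.1 (hA.1 e3)
  refine ⟨j + 1, by omega, by omega, mem_sdiff.2 ⟨mem_filter.2 ⟨mem_grid.2 ?_, Or.inr
    ⟨(i, j), e3, ?_⟩⟩, e4⟩⟩
  · simp only at this ⊢; omega
  · simp [Nat.dist]

lemma count (B : Finset (ℕ × ℕ)) (P : ℕ × ℕ → Prop) [DecidablePred P] (S T : Finset ℕ)
    (hS : ∀ j ∈ S, ∃ i, (i, j) ∈ B ∧ P (i, j)) (hT : ∀ i ∈ T, ∃ j, (i, j) ∈ B ∧ ¬ P (i, j)) :
    S.card + T.card ≤ B.card := by
  rw [← card_filter_add_card_filter_not (s := B) P]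
  refine add_le_add ?_ ?_
  · refine le_trans (card_le_card (t := (B.filter P).image Prod.snd) ?_) card_image_le
    intro j hj
    obtain ⟨i, h⟩ := hS j hj
    exact mem_image.2 ⟨(i, j), mem_filter.2 h, rfl⟩
  · refine le_trans (card_le_card (t := (B.filter (fun v => ¬ P v)).image Prod.fst) ?_)
      card_image_le
    intro i hi
    obtain ⟨j, h⟩ := hT i hi
    exact mem_image.2 ⟨(i, j), mem_filter.2 h, rfl⟩

lemma iso (hn : 1 ≤ n) (hm : n ≤ m) (hA : IsIdeal m n A) : ∃ b, (nbhd m n A).card = A.card + b ∧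
    (n ≤ b ∨ A.card ≤ AA m n (b - 1) ∨ AA m n (m + n - 1 - b) ≤ A.card) := by
  have hsub : A ⊆ nbhd m n A := fun v hv => mem_filter.2 ⟨hA.1 hv, Or.inl hv⟩
  refine ⟨(nbhd m n A \ A).card, by rw [← card_sdiff_add_card_eq_card hsub, add_comm], ?_⟩
  have dn : ∀ {i j i' j' : ℕ}, (i, j) ∈ A → 1 ≤ i' → i' ≤ i → 1 ≤ j' → j' ≤ j → (i', j') ∈ A :=
    fun {i j i' j'} h a b c d => by
      have := mem_grid.1 (hA.1 h)
      exact hA.2 _ h _ (mem_grid.2 (by simp only at this ⊢; omega)) b d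
  by_cases hP : (m, 1) ∈ A <;> by_cases hQ : (1, n) ∈ A
  · right; right
    refine card_le_card fun ⟨i, j⟩ hv => ?_
    rw [mem_filter, mem_grid] at hv
    simp only at hv
    by_contra hc
    have := count (nbhd m n A \ A) (fun v => v.1 ≤ i) (Icc j n) (Icc (i + 1) m) ?_ ?_
    · simp only [Nat.card_Icc] at this; omega
    · intro j' hj
      rw [mem_Icc] at hj
      obtain ⟨a, h1, h2, h3⟩ := colB hA (dn hQ le_rfl le_rfl (by omega) hj.2)
        (b := i) (fun h => hc (dn h (by omega) le_rfl (by omega) hj.1)) (by omega) (by omega)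
      exact ⟨a, h3, h2⟩
    · intro i' hi
      rw [mem_Icc] at hi
      obtain ⟨a, h1, h2, h3⟩ := rowB hA (dn hP (by omega) hi.2 le_rfl le_rfl)
        (b := j) (fun h => hc (dn h (by omega) (by omega) (by omega) le_rfl)) (by omega) (by omega)
      exact ⟨a, h3, by simp only; omega⟩
  · left
    have := count (nbhd m n A \ A) (fun _ => False) ∅ (Icc 1 m) (by simp) ?_
    · simp only [Nat.card_Icc, card_empty] at this; omega
    · intro i' hi
      rw [mem_Icc] at hi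
      obtain ⟨a, h1, h2, h3⟩ := rowB hA (dn hP hi.1 hi.2 le_rfl le_rfl)
        (b := n) (fun h => hQ (dn h le_rfl hi.1 hn le_rfl)) hn le_rfl
      exact ⟨a, h3, not_false⟩
  · left
    have := count (nbhd m n A \ A) (fun _ => True) (Icc 1 n) ∅ ?_ (by simp)
    · simp only [Nat.card_Icc, card_empty] at this; omega
    · intro j' hj
      rw [mem_Icc] at hj
      obtain ⟨a, h1, h2, h3⟩ := colB hA (dn hQ le_rfl le_rfl hj.1 hj.2)
        (b := m) (fun h => hP (dn h (by omega) le_rfl le_rfl hj.1)) (by omega) le_rfl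
      exact ⟨a, h3, trivial⟩
  · right; left
    refine card_le_card fun ⟨i, j⟩ hv => ?_
    have hg := mem_grid.1 (hA.1 hv)
    simp only at hg
    refine mem_filter.2 ⟨hA.1 hv, ?_⟩
    have := count (nbhd m n A \ A) (fun v => i < v.1) (Icc 1 j) (Icc 1 i) ?_ ?_
    · simp only [Nat.card_Icc] at this ⊢; omega
    · intro j' hj
      rw [mem_Icc] at hj
      obtain ⟨a, h1, h2, h3⟩ := colB hA (dn hv (by omega) le_rfl hj.1 hj.2)
        (b := m) (fun h => hP (dn h (by omega) le_rfl le_rfl hj.1)) (by omega) le_rfl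
      exact ⟨a, h3, h1⟩
    · intro i' hi
      rw [mem_Icc] at hi
      obtain ⟨a, h1, h2, h3⟩ := rowB hA (dn hv hi.1 hi.2 (by omega) le_rfl)
        (b := n) (fun h => hQ (dn h le_rfl hi.1 hn le_rfl)) (by omega) le_rfl
      exact ⟨a, h3, by simp only; omega⟩

end

lemma exists_ideal (m n : ℕ) : ∀ s, s ≤ m * n → ∃ A, IsIdeal m n A ∧ A.card = s
  | 0, _ => ⟨∅, ⟨empty_subset _, by simp⟩, rfl⟩
  | s + 1, h => by
      obtain ⟨A, hA, hc⟩ := exists_ideal m n s (by omega)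
      have hne : (grid m n \ A).Nonempty := by
        rw [← card_pos, card_sdiff_of_subset hA.1, card_grid]; omega
      obtain ⟨w, hw, hmin⟩ := exists_min_image _ (fun v : ℕ × ℕ => v.1 + v.2) hne
      rw [mem_sdiff] at hw
      refine ⟨insert w A, ⟨insert_subset hw.1 hA.1, ?_⟩, by rw [card_insert_of_notMem hw.2, hc]⟩
      intro u hu v hv h1 h2
      rcases mem_insert.1 hu with rfl | hu
      · by_cases hvA : v ∈ A
        · exact mem_insert_of_mem hvA
        · have := hmin v (mem_sdiff.2 ⟨hv, hvA⟩)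
          exact mem_insert.2 (Or.inl (Prod.ext (by omega) (by omega)))
      · exact mem_insert_of_mem (hA.2 u hu v hv h1 h2)

/-- the one-step property of a chain -/
def Step (m n x y : ℕ) : Prop :=
  ∃ b, x + b ≤ y ∧ (n ≤ b ∨ x ≤ AA m n (b - 1) ∨ AA m n (m + n - 1 - b) ≤ x)

lemma step_of_nu {m n x y : ℕ} (hn : 1 ≤ n) (hm : n ≤ m) (hx : x ≤ m * n) (h : nu m n x ≤ y) :
    Step m n x y := by
  obtain ⟨A, hA, hc⟩ := exists_ideal m n x hx
  obtain ⟨B, hB, h1, h2⟩ := Nat.sInf_mem (s := {k | ∃ A, IsIdeal m n A ∧ A.card = x ∧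
    (nbhd m n A).card = k}) ⟨_, A, hA, hc, rfl⟩
  obtain ⟨b, h3, h4⟩ := iso hn hm hB
  rw [h1] at h3 h4
  exact ⟨b, by unfold nu at h; omega, h4⟩

end Pool.Agent.H.MP_00a158_co
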