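import Pool.Agent.H.MP_00a158_co.A

namespace Pool.Agent.H.MP_00a158_co
open Finset

variable {m n : ℕ}

lemma fwd (hn : 1 ≤ n) (hm : n ≤ m) {x y k τ : ℕ} (hs : Step m n x y) (h1 : AA m n k + τ ≤ x)
    (h2 : 1 ≤ AA m n k + τ) : AA m n (k + 1) + min τ (dd m n (k + 1)) ≤ y := by
  obtain ⟨b, hb, h⟩ := hs
  by_cases hd : dd m n k ≤ b
  · rw [AA_succ hm]; omega
  have d1 : b < k + 1 ∧ b < n ∧ b < m + n - 1 - k := by unfold dd at hd; omega
  rcases h with h | h | h
  · omega
  · exfalso
    rcases b with _ | b
    · rw [Nat.zero_sub, AA_zero] at h; omega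
    · have e := AA_succ hm b
      have := AA_mono m n (show b + 1 ≤ k by omega)
      have : 1 ≤ dd m n b := by unfold dd; omega
      rw [Nat.add_sub_cancel] at h
      omega
  · have e := AA_succ hm (m + n - 1 - b)
    have e2 := AA_succ hm (k + 1)
    have := AA_mono m n (show k + 1 + 1 ≤ m + n - 1 - b + 1 by omega)
    have : dd m n (m + n - 1 - b) ≤ b := by unfold dd; omega
    omega

lemma bwd (hn : 1 ≤ n) (hm : n ≤ m) {x y k t : ℕ} (hs : Step m n x y) (hk : k + 2 ≤ m + n - 1)
    (h1 : y ≤ AA m n (k + 1) + min t (dd m n (k + 1) - 1)) :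
    x ≤ AA m n k + min t (dd m n k - 1) := by
  by_contra hc
  have d0 : 1 ≤ dd m n k := by unfold dd; omega
  have d1 : 1 ≤ dd m n (k + 1) := by unfold dd; omega
  by_cases ht : t + 1 ≤ dd m n k
  · have := fwd hn hm (k := k) (τ := t + 1) hs (by omega) (by omega)
    omega
  · have e := AA_succ hm k
    have e2 := AA_succ hm (k + 1)
    have := fwd hn hm (k := k + 1) (τ := 0) hs (by omega) (by omega)
    omega

lemma sum_cut (g : ℕ → ℕ) (a b : ℕ) (h : ∀ i, b ≤ i → g i = 0) :
    ∑ i ∈ range a, g i ≤ ∑ i ∈ range b, g i :=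
  sum_le_sum_of_ne_zero fun i _ hi => mem_range.2 (by
    by_contra hc
    exact hi (h i (by omega)))

theorem chain (hn : 1 ≤ n) (hm : n ≤ m) (X : ℕ → ℕ) (hX : ∀ k, Step m n (X k) (X (k + 1)))
    (L : ℕ) (hL : X L = m * n) :
    ∑ k ∈ range L, min (X k) (m * n - X k) ≤
      ∑ l ∈ range (m + n - 1), min (AA m n (l + 1)) (m * n - AA m n (l + 1)) := by
  classical
  obtain ⟨q, hq⟩ : ∃ q, m + n - 1 = 2 * q ∨ m + n - 1 = 2 * q + 1 := ⟨(m + n - 1) / 2, by omega⟩
  have hex : ∃ k, AA m n (q + 1) ≤ X k := ⟨L, hL ▸ AA_le _ _ _⟩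
  obtain ⟨P, hP, hmin⟩ : ∃ P, AA m n (q + 1) ≤ X P ∧ ∀ k, k < P → X k < AA m n (q + 1) :=
    ⟨Nat.find hex, Nat.find_spec hex, fun k hk => not_le.1 (Nat.find_min hex hk)⟩
  have dq : 1 ≤ dd m n q := by unfold dd; omega
  have eq1 := AA_succ hm q
  obtain ⟨t, ht1, ht2⟩ : ∃ t, AA m n (q + 1) + min t (dd m n (q + 1)) ≤ X P ∧
      (0 < P → X (P - 1) ≤ AA m n q + min t (dd m n q - 1)) := by
    rcases P with _ | P
    · exact ⟨0, by simpa using hP, by simp⟩
    · have := hmin P (by omega)
      by_cases hc : X P ≤ AA m n q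
      · exact ⟨0, by simpa using hP, fun _ => by simpa using hc⟩
      · exact ⟨X P - AA m n q, fwd hn hm (hX P) (by omega) (by omega), fun _ => by
          rw [Nat.add_sub_cancel]; omega⟩
  have F : ∀ i, AA m n (q + 1 + i) + min t (dd m n (q + 1 + i)) ≤ X (P + i) := by
    intro i
    induction i with
    | zero => exact ht1
    | succ i ih =>
      have := AA_mono m n (show q + 1 ≤ q + 1 + i by omega)
      have := fwd hn hm (hX (P + i)) ih (by omega)
      have : dd m n (q + 1 + i + 1) ≤ dd m n (q + 1 + i) := by unfold dd; omega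
      rw [← add_assoc, ← add_assoc]
      omega
  have B : ∀ i, i < P → X (P - 1 - i) ≤ AA m n (q - i) + min t (dd m n (q - i) - 1) := by
    intro i
    induction i with
    | zero => exact ht2
    | succ i ih =>
      intro hi
      have ih := ih (by omega)
      have hs := hX (P - 1 - (i + 1))
      rw [show P - 1 - (i + 1) + 1 = P - 1 - i by omega] at hs
      by_cases hc : i + 1 ≤ q
      · rw [show q - i = q - (i + 1) + 1 by omega] at ih
        exact bwd hn hm hs (by omega) ih
      · rw [show q - (i + 1) = q - i by omega]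
        obtain ⟨b, hb, _⟩ := hs
        omega
  -- the two halves
  have sym := fun a b => AA_symm hm a b
  set N := m * n with hN
  let g : ℕ → ℕ := fun i => min (AA m n (q - i) + min t (dd m n (q - i) - 1)) (N - AA m n q)
  let h : ℕ → ℕ := fun i => N - (AA m n (q + 1 + i) + min t (dd m n (q + 1 + i)))
  have half : 2 * AA m n q ≤ N := by
    have := sym q (m + n - 1 - q) (by omega)
    have := AA_mono m n (show q ≤ m + n - 1 - q by omega)
    omega
  have s1 : ∑ k ∈ range L, min (X k) (N - X k) ≤ ∑ i ∈ range P, g i + ∑ i ∈ range L, h i := by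
    calc ∑ k ∈ range L, min (X k) (N - X k) ≤ ∑ k ∈ range (P + L), min (X k) (N - X k) :=
          sum_le_sum_of_subset (range_subset_range.2 (by omega))
      _ ≤ _ := by
          rw [sum_range_add, ← sum_range_reflect _ P]
          refine add_le_add (sum_le_sum fun i hi => ?_) (sum_le_sum fun i _ => ?_)
          · have := B i (mem_range.1 hi)
            simp only [g]; omega
          · have := F i
            simp only [h]; omega
  have s2 := sum_cut g P q (fun i hi => by
    have : dd m n 0 ≤ 1 := by unfold dd; omega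
    simp only [g, show q - i = 0 by omega, AA_zero]; omega)
  have s3 := sum_cut h L (m + n - 1 - q - 1) (fun i hi => by
    simp only [h, AA_top m n (q + 1 + i) (by omega)]; omega)
  have s4 : ∑ i ∈ range q, AA m n (q - i) + ∑ i ∈ range (m + n - 1 - q - 1),
      (N - AA m n (q + 1 + i)) ≤
      ∑ l ∈ range (m + n - 1), min (AA m n (l + 1)) (N - AA m n (l + 1)) := by
    calc _ ≤ ∑ l ∈ range (q + (m + n - 1 - q - 1)), min (AA m n (l + 1)) (N - AA m n (l + 1)) := by
          rw [sum_range_add, ← sum_range_reflect (fun l => min (AA m n (l + 1))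
            (N - AA m n (l + 1))) q]
          refine add_le_add (sum_le_sum fun i hi => ?_) (sum_le_sum fun i _ => ?_)
          · have := mem_range.1 hi
            rw [show q - 1 - i + 1 = q - i by omega]
            have := AA_mono m n (show q - i ≤ q by omega)
            omega
          · rw [show q + i + 1 = q + 1 + i by omega]
            have := sym (q + 1) (m + n - 1 - (q + 1)) (by omega)
            have := AA_mono m n (show m + n - 1 - (q + 1) ≤ q + 1 + i by omega)
            have := AA_mono m n (show q + 1 ≤ q + 1 + i by omega)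
            omega
      _ ≤ _ := sum_le_sum_of_subset (range_subset_range.2 (by omega))
  refine le_trans (s1.trans (add_le_add s2 s3)) (le_trans ?_ s4)
  have pair : ∀ a c : ℕ, a + 1 + c = m + n - 1 → q ≤ c →
      AA m n (a + 1) + min t (dd m n (a + 1) - 1) + (N - (AA m n c + min t (dd m n c))) ≤
        AA m n (a + 1) + (N - AA m n c) := fun a c e hc => by
    have e1 : dd m n (a + 1) - 1 ≤ dd m n c := by unfold dd; omega
    have e2 := AA_succ hm c
    have e3 := AA_le m n (c + 1)
    omega
  rcases hq with hq | hq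
  · obtain ⟨r, rfl⟩ : ∃ r, q = r + 1 := ⟨q - 1, by omega⟩
    rw [show m + n - 1 - (r + 1) - 1 = r by omega, sum_range_succ' g, sum_range_succ' _ r,
      add_right_comm, add_right_comm _ (AA m n (r + 1 - 0)), ← sum_add_distrib, ← sum_add_distrib]
    refine add_le_add (sum_le_sum fun i hi => ?_) ?_
    · have := mem_range.1 hi
      have := pair (r - (i + 1)) (r + 1 + 1 + i) (by omega) (by omega)
      simp only [g, h, show r + 1 - (i + 1) = r - (i + 1) + 1 by omega]
      omega
    · have := sym (r + 1) (r + 1) (by omega)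
      simp only [g, Nat.sub_zero]
      omega
  · rw [show m + n - 1 - q - 1 = q by omega, ← sum_add_distrib, ← sum_add_distrib]
    refine sum_le_sum fun i hi => ?_
    have := mem_range.1 hi
    have := pair (q - i - 1) (q + 1 + i) (by omega) (by omega)
    rw [show q - i - 1 + 1 = q - i by omega] at this
    simp only [g, h]
    omega

end Pool.Agent.H.MP_00a158_co
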